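import Pool.Agent.H92.CZ.Pcv

/-!
# THEOREM CCB: tame points

`Tame`: every `Fxd` group with a subgroup of finite index in the local kernel has at most `N` elements.
-/

set_option autoImplicit false

namespace Pool.Agent.H37.CE

open Pool.Agent.H37.CC Pool.Agent.H37.CD
open scoped Pointwise

/-- the groups which are virtually in the local kernel are small -/
def Tame (G : Type) {H : Type} [Group G] [PartialOrder H] [Bas H] [MulAction G H] [BAct G H] (k N ρ : ℕ)
    (P : Set (Vtx H) × Set H) (y : Vtx H) : Prop :=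
  ∀ B : Subgroup G, Fxd H k B → (∃ B' ≤ B, B'.relIndex B ≠ 0 ∧ B' ≤ Ker G ρ P y) → (B : Set G).encard ≤ N

variable {G H : Type} [Group G] [PartialOrder H] [Bas H] [MulAction G H] [BAct G H]
variable {P : Set (Vtx H) × Set H} {y z : Vtx H} {k N m ρ ρ' t : ℕ}

theorem Tame.anti {P' : Set (Vtx H) × Set H} (h : Tame G k N ρ P y) (hle : Ker G ρ' P' z ≤ Ker G ρ P y) : Tame G k N ρ' P' z := by
  rintro B hB ⟨B', h1, h2, h3⟩
  exact h B hB ⟨B', h1, h2, h3.trans hle⟩

theorem Tame.move (h : Tame G k N ρ P y) (hP : Rgn P) (hy : y ∈ P.1) (hz : z ∈ P.1) (hd : ds y z ≤ t) :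
    Tame G k N (ρ + t) P z := by
  refine h.anti (Ker_le hP hz hy ?_)
  rwa [Pool.Agent.H37.CC.ds_comm]

theorem Fxd.conj (g : G) {B : Subgroup G} (h : Fxd H k B) : Fxd H k (B.map (MulAut.conj g).toMonoidHom) := by
  obtain ⟨x, y, h1, h2⟩ := h
  refine ⟨g • x, g • y, by rwa [Pool.Agent.H25.CN.ds_smul], ?_⟩
  rintro _ ⟨b, hb, rfl⟩
  obtain ⟨h3, h4⟩ := h2 b hb
  have e : ∀ v : Vtx H, b • v = v → ((MulAut.conj g).toMonoidHom b) • g • v = g • v := by
    intro v hv
    show (g * b * g⁻¹) • g • v = g • v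
    rw [mul_smul, mul_smul, inv_smul_smul, hv]
  exact ⟨e x h3, e y h4⟩

theorem Ker_conj (g : G) : Ker G ρ (g • P) (g • y) = (Ker G ρ P y).map (MulAut.conj g).toMonoidHom := by
  ext γ
  rw [Ker_smul]
  constructor
  · intro h
    refine ⟨_, h, ?_⟩
    show g * (g⁻¹ * γ * g) * g⁻¹ = γ
    group
  · rintro ⟨b, hb, rfl⟩
    have e : g⁻¹ * ((MulAut.conj g).toMonoidHom b) * g = b := by
      show g⁻¹ * (g * b * g⁻¹) * g = b
      group
    rw [e]
    exact hb

/-- invariance -/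
theorem Tame.smul (g : G) (h : Tame G k N ρ P y) : Tame G k N ρ (g • P) (g • y) := by
  rintro B hB ⟨B', h1, h2, h3⟩
  obtain ⟨φ, hφ⟩ : ∃ φ, φ = (MulAut.conj g⁻¹).toMonoidHom := ⟨_, rfl⟩
  have hinj : Function.Injective φ := by
    rw [hφ]
    exact (MulAut.conj g⁻¹).injective
  have h4 : (B.map φ : Set G).encard ≤ N := by
    refine h _ (by rw [hφ]; exact Fxd.conj g⁻¹ hB) ⟨B'.map φ, Subgroup.map_mono h1, ?_, ?_⟩
    · rw [Subgroup.relIndex_map_map_of_injective _ _ hinj]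
      exact h2
    · rw [Ker_conj] at h3
      refine (Subgroup.map_mono h3).trans ?_
      rintro _ ⟨_, ⟨b, hb, rfl⟩, rfl⟩
      have e : φ ((MulAut.conj g).toMonoidHom b) = b := by
        rw [hφ]
        show g⁻¹ * (g * b * g⁻¹) * g⁻¹⁻¹ = b
        group
      rw [e]
      exact hb
  rw [Subgroup.coe_map, hinj.encard_image] at h4
  exact h4

theorem Pcv.tame {I : Type} [PartialOrder I] [MulAction G I] {o : I} {pc : Subgroup G → I} (h : Pcv H k N m o pc)
    (hF : Fxd H k (Ker G ρ P y)) (hb : pc (Ker G ρ P y) = o) : Tame G k N ρ P y := fun B hB hi => h.small' hF hb B hB hi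

end Pool.Agent.H37.CE
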