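import Pool.Agent.H37.CE.Defs
import Pool.Agent.H92.CY.Asm

/-!
# THEOREM CCB: the families of the closures and of the objects

`par_or_tame`: for radii `ρ 0, .., ρ (2 m)` (steps at least `t`) some value `pc (Ker (ρ (2 i)) y)` is attained by `Ker (ρ (2 i + 1)) z` for all
points `z` of the region with `ds y z ≤ t`, and is not `o`, or `Tame (ρ 0) y`. `par_famW`: the family of the closures. `ob_famW3`: the family of
the objects at tame points.
-/

set_option autoImplicit false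

namespace Pool.Agent.H37.CE

open scoped Pointwise
open Pool.Agent.H98.FJ Pool.Agent.H37.PT Pool.Agent.H76.GT Pool.Agent.H37.CC Pool.Agent.H37.CD

section

variable {G H : Type} [Group G] [PartialOrder H] [Bas H] [MulAction G H] [BAct G H]

/-- the closure of the local kernel is constant near `y` for one of the radii, or `y` is tame -/
theorem par_or_tame {I : Type} [PartialOrder I] [MulAction G I] {k N m : ℕ} {o : I} {pc : Subgroup G → I}
    (h : Pcv H k N m o pc) {P : Set (Vtx H) × Set H} (hP : Rgn P) {y z0 : Vtx H} (hy : y ∈ P.1) (hz0 : z0 ∈ P.1)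
    (hk : k ≤ ds y z0) {ρ : ℕ → ℕ} {t : ℕ} (hρ : ∀ i < 2 * m, ρ (i + 1) + t ≤ ρ i) (hd : ds y z0 ≤ ρ (2 * m)) :
    (∃ i < m, pc (Ker G (ρ (2 * i + 1)) P y) ≠ o ∧ ∀ z ∈ P.1, ds y z ≤ t → Fxd H k (Ker G (ρ (2 * i + 1)) P z) ∧
      pc (Ker G (ρ (2 * i + 1)) P z) = pc (Ker G (ρ (2 * i + 1)) P y)) ∨ Tame G k N (ρ 0) P y := by
  have hanti : ∀ j, j ≤ 2 * m → ∀ i, i ≤ j → ρ j ≤ ρ i := by
    intro j
    induction j with
    | zero =>
      intro _ i hi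
      rw [Nat.le_zero.1 hi]
    | succ j ih =>
      intro hj i hi
      rcases Nat.lt_or_ge i (j + 1) with h1 | h1
      · have h2 := ih (by omega) i (by omega)
        have h3 := hρ j (by omega)
        omega
      · have : i = j + 1 := by omega
        rw [this]
  have hF : ∀ i, i ≤ 2 * m → Fxd H k (Ker G (ρ i) P y) := fun i hi =>
    Fxd_Ker hP hy hz0 (hd.trans (hanti _ le_rfl _ hi)) hk
  let B : ℕ → Subgroup G := fun i => Ker G (ρ (min (2 * i) (2 * m))) P y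
  have hB : Monotone B := by
    refine monotone_nat_of_le_succ fun i => Ker_anti (hanti _ (min_le_right _ _) _ ?_)
    exact min_le_min (by omega) le_rfl
  by_cases hb : pc (B 0) = o
  · right
    have e : B 0 = Ker G (ρ 0) P y := by
      show Ker G (ρ (min (2 * 0) (2 * m))) P y = _
      rw [mul_zero, Nat.zero_min]
    rw [e] at hb
    exact h.tame (hF 0 (Nat.zero_le _)) hb
  · left
    obtain ⟨i, hi, h1⟩ := h.chain B (fun i => hF _ (min_le_right _ _)) (fun i => hB (Nat.le_succ i)) hb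
    have e1 : B i = Ker G (ρ (2 * i)) P y := by
      show Ker G (ρ (min (2 * i) (2 * m))) P y = _
      rw [min_eq_left (by omega)]
    have e2 : B (i + 1) = Ker G (ρ (2 * i + 2)) P y := by
      show Ker G (ρ (min (2 * (i + 1)) (2 * m))) P y = _
      rw [min_eq_left (by omega)]
      rfl
    rw [e1, e2] at h1
    have h0 : pc (Ker G (ρ (2 * i)) P y) ≠ o := by
      rw [← e1]
      intro h2
      apply hb
      refine le_antisymm ?_ (h.bot _)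
      rw [← h2]
      exact h.mono _ _ (hF _ (min_le_right _ _)) (hF _ (min_le_right _ _)) (hB (Nat.zero_le i))
    have key : ∀ z ∈ P.1, ds y z ≤ t → Fxd H k (Ker G (ρ (2 * i + 1)) P z) ∧
        pc (Ker G (ρ (2 * i + 1)) P z) = pc (Ker G (ρ (2 * i)) P y) := by
      intro z hz hyz
      have a1 : Ker G (ρ (2 * i)) P y ≤ Ker G (ρ (2 * i + 1)) P z :=
        (Ker_anti (hρ (2 * i) (by omega))).trans (Ker_le hP hy hz hyz)
      have a2 : Ker G (ρ (2 * i + 1)) P z ≤ Ker G (ρ (2 * i + 2)) P y :=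
        (Ker_anti (hρ (2 * i + 1) (by omega))).trans (Ker_le hP hz hy (by rwa [Pool.Agent.H37.CC.ds_comm]))
      have a3 : Fxd H k (Ker G (ρ (2 * i + 1)) P z) := (hF (2 * i + 2) (by omega)).mono a2
      refine ⟨a3, le_antisymm ?_ (h.mono _ _ (hF _ (by omega)) a3 a1)⟩
      rw [h1]
      exact h.mono _ _ a3 (hF _ (by omega)) a2
    have hyy : ds y y ≤ t := by
      unfold ds
      rw [Set.sdiff_self, Set.ncard_empty]
      exact Nat.zero_le _
    have hkey := (key y hy hyy).2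
    refine ⟨i, hi, by rw [hkey]; exact h0, fun z hz hyz => ?_⟩
    obtain ⟨a1, a2⟩ := key z hz hyz
    exact ⟨a1, by rw [a2, hkey]⟩

end

section

variable {G X H : Type} [Group G] [TopologicalSpace X] [MulAction G X] [PartialOrder H] [Bas H] [MulAction G H] [BAct G H]

/-- the closures: family -/
theorem par_fam {C : (G : Type) → [Group G] → Prop} (hC : Inherits C) {I : Type} [PartialOrder I] [MulAction G I]
    {k N m : ℕ} {o0 : I} {pc : Subgroup G → I} (h : Pcv H k N m o0 pc) {Rb : G → Set X} {F : G → X → (Set (Vtx H) × Set H) × Vtx H}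
    (hF : Sys Rb F) (ρ R1 : ℕ) :
    IsFam C 1 (fun (o : I) (g : G) => {x : X | x ∈ Rb g ∧ C (MulAction.stabilizer G o) ∧
      (∃ y ∈ (F g x).1.1, ds (F g x).2 y ≤ R1) ∧ ∀ y ∈ (F g x).1.1, ds (F g x).2 y ≤ R1 →
        Fxd H k (Ker G ρ (F g x).1 y) ∧ pc (Ker G ρ (F g x).1 y) = o}) := by
  constructor
  · intro o g
    by_cases ho : C (MulAction.stabilizer G o)
    · have h1 := hF.opn g (fun q => (∃ y ∈ q.1.1, ds q.2 y ≤ R1) ∧ ∀ y ∈ q.1.1, ds q.2 y ≤ R1 →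
        Fxd H k (Ker G ρ q.1 y) ∧ pc (Ker G ρ q.1 y) = o)
      have h2 : {x : X | x ∈ Rb g ∧ C (MulAction.stabilizer G o) ∧ (∃ y ∈ (F g x).1.1, ds (F g x).2 y ≤ R1) ∧
          ∀ y ∈ (F g x).1.1, ds (F g x).2 y ≤ R1 → Fxd H k (Ker G ρ (F g x).1 y) ∧ pc (Ker G ρ (F g x).1 y) = o} =
          {x | x ∈ Rb g ∧ (∃ y ∈ (F g x).1.1, ds (F g x).2 y ≤ R1) ∧ ∀ y ∈ (F g x).1.1, ds (F g x).2 y ≤ R1 →
            Fxd H k (Ker G ρ (F g x).1 y) ∧ pc (Ker G ρ (F g x).1 y) = o} := by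
        ext x
        exact ⟨fun h2 => ⟨h2.1, h2.2.2⟩, fun h2 => ⟨h2.1, ho, h2.2⟩⟩
      rw [h2]
      exact h1
    · have h1 : {x : X | x ∈ Rb g ∧ C (MulAction.stabilizer G o) ∧ (∃ y ∈ (F g x).1.1, ds (F g x).2 y ≤ R1) ∧
          ∀ y ∈ (F g x).1.1, ds (F g x).2 y ≤ R1 → Fxd H k (Ker G ρ (F g x).1 y) ∧ pc (Ker G ρ (F g x).1 y) = o} = ∅ := by
        ext x
        exact ⟨fun h2 => ho h2.2.1, fun h2 => absurd h2 (Set.notMem_empty x)⟩
      rw [h1]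
      exact isOpen_empty
  · rintro o g h' x ⟨h1, h0, ⟨y, hy, hyd⟩, h2⟩
    have e := hF.eqv g h' x
    refine ⟨hF.rb g h' x h1, ?_, ?_, ?_⟩
    · exact hC.iso _ _ (MulAction.stabilizerEquivStabilizer (g := g) (a := o) (b := g • o) rfl) h0
    · rw [e]
      refine ⟨g • y, Set.smul_mem_smul_set hy, ?_⟩
      show ds (g • (F h' x).2) (g • y) ≤ R1
      rw [Pool.Agent.H25.CN.ds_smul]
      exact hyd
    · rw [e]
      intro z hz hzd
      obtain ⟨z', hz', rfl⟩ := Set.mem_smul_set.1 hz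
      have hzd' : ds (g • (F h' x).2) (g • z') ≤ R1 := hzd
      rw [Pool.Agent.H25.CN.ds_smul] at hzd'
      obtain ⟨h3, h4⟩ := h2 z' hz' hzd'
      show Fxd H k (Ker G ρ (g • (F h' x).1) (g • z')) ∧ pc (Ker G ρ (g • (F h' x).1) (g • z')) = g • o
      rw [Ker_conj]
      exact ⟨h3.conj g, by rw [h.equi g _ h3, h4]⟩
  · rintro o g h' x ⟨-, -, ⟨y, hy, hyd⟩, h2⟩ ⟨-, -, -, h3⟩
    exact (h3 y hy hyd).2.symm.trans (h2 y hy hyd).2
  · rintro o h' x ⟨-, h0, -⟩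
    exact h0
  · intro h' x
    rw [Nat.cast_one, Set.encard_le_one_iff]
    rintro o o' ⟨-, -, ⟨y, hy, hyd⟩, h2⟩ ⟨-, -, -, h3⟩
    rw [← (h2 y hy hyd).2, ← (h3 y hy hyd).2]

/-- the families of the closures -/
theorem par_famW {C : (G : Type) → [Group G] → Prop} (hC : Inherits C) {I : Type} [PartialOrder I] [MulAction G I]
    {k N m : ℕ} {o0 : I} {pc : Subgroup G → I} (h : Pcv H k N m o0 pc) (h3 : ∀ B : Subgroup G, Fxd H k B → pc B ≠ o0 → C (MulAction.stabilizer G (pc B))) {Rb : G → Set X}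
    {F : G → X → (Set (Vtx H) × Set H) × Vtx H} (hF : Sys Rb F) (S : Set G) {e1 e rad ρ : ℕ}
    (hr : ρ + 2 * (e1 + e) + e ≤ rad) :
    ∃ Φ : Fam G X, FamW C 1 S (fun g x => (∀ s ∈ S, x ∈ Rb (g * s)) ∧ ∃ y, Same F S e1 e rad g x y ∧
      pc (Ker G ρ (F g x).1 y) ≠ o0 ∧ ∀ z ∈ (F g x).1.1, ds y z ≤ 2 * (e1 + e) → Fxd H k (Ker G ρ (F g x).1 z) ∧
        pc (Ker G ρ (F g x).1 z) = pc (Ker G ρ (F g x).1 y)) Φ := by
  refine ⟨⟨I, inferInstance, _, 1⟩, rfl, par_fam hC h hF ρ (e1 + e), ?_⟩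
  rintro g x ⟨hx, y, hs, h0, hy⟩
  refine ⟨pc (Ker G ρ (F g x).1 y), fun s hs' => ?_⟩
  have h1 := hs.cen s hs'
  have h2 := hs.near
  refine ⟨hx s hs', h3 _ (hy y hs.mem (by
    unfold ds
    rw [Set.sdiff_self, Set.ncard_empty]
    exact Nat.zero_le _)).1 h0, ⟨y, (hs.reg s hs' y (by omega)).1 hs.mem, hs.near' hs'⟩, fun y' hy' hd' => ?_⟩
  have h4 := ds_triangle (F g x).2 (F (g * s) x).2 y'
  have h5 : y' ∈ (F g x).1.1 := (hs.reg s hs' y' (by omega)).2 hy'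
  have h6 := ds_triangle y (F g x).2 y'
  rw [Pool.Agent.H37.CC.ds_comm y (F g x).2] at h6
  have h7 : Ker G ρ (F (g * s) x).1 y' = Ker G ρ (F g x).1 y' := Ker_cf (hs.cf s hs' y' h5 ρ (by omega))
  rw [h7]
  exact hy y' h5 (by omega)

omit [TopologicalSpace X] in
private theorem ob_smul (g : G) (Q b r : ℕ) (P : Set (Vtx H) × Set H) (y : Vtx H) :
    (Ob Q b r (g • P) (g • y) : Set G) = (Pool.Agent.H54.AX.cact (MonoidHom.id G)).smul g (Ob Q b r P y) := by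
  have e : ∀ (x : G) (m : ℕ), (g⁻¹ * x * g) ^ m = g⁻¹ * x ^ m * g := by
    intro x m
    have h1 := (conj_pow (a := g⁻¹) (b := x) (i := m))
    rw [inv_inv] at h1
    exact h1
  have hcl : ∀ t, t ∈ Subgroup.closure {x : G | ∃ γ ∈ Tb G b r (g • P) (g • y), x = γ ^ Q} ↔
      g⁻¹ * t * g ∈ Subgroup.closure {x : G | ∃ γ ∈ Tb G b r P y, x = γ ^ Q} := by
    intro t
    have e1 : {x : G | ∃ γ ∈ Tb G b r (g • P) (g • y), x = γ ^ Q} =
        (MulAut.conj g).toMonoidHom '' {x : G | ∃ γ ∈ Tb G b r P y, x = γ ^ Q} := by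
      ext u
      constructor
      · rintro ⟨γ', h1, rfl⟩
        refine ⟨(g⁻¹ * γ' * g) ^ Q, ⟨_, ?_, rfl⟩, ?_⟩
        · rw [← Tb_smul g]
          have e2 : g * (g⁻¹ * γ' * g) * g⁻¹ = γ' := by group
          rw [e2]
          exact h1
        · show g * (g⁻¹ * γ' * g) ^ Q * g⁻¹ = γ' ^ Q
          rw [e]
          group
      · rintro ⟨_, ⟨γ', h1, rfl⟩, rfl⟩
        refine ⟨g * γ' * g⁻¹, (Tb_smul g _ _ _ _ _).2 h1, ?_⟩
        show g * γ' ^ Q * g⁻¹ = _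
        rw [conj_pow]
    rw [e1, ← MonoidHom.map_closure, Subgroup.mem_map]
    constructor
    · rintro ⟨u, hu, rfl⟩
      have e2 : g⁻¹ * ((MulAut.conj g).toMonoidHom u) * g = u := by
        show g⁻¹ * (g * u * g⁻¹) * g = u
        group
      rw [e2]
      exact hu
    · intro hu
      refine ⟨_, hu, ?_⟩
      show g * (g⁻¹ * t * g) * g⁻¹ = t
      group
  ext x
  show (∃ m : ℕ, 0 < m ∧ x ^ m ∈ _) ↔ ∃ m : ℕ, 0 < m ∧ (g⁻¹ * x * g) ^ m ∈ _
  constructor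
  · rintro ⟨m, hm, h1⟩
    refine ⟨m, hm, ?_⟩
    rw [e]
    exact (hcl _).1 h1
  · rintro ⟨m, hm, h1⟩
    refine ⟨m, hm, (hcl _).2 ?_⟩
    rw [← e]
    exact h1

/-- the objects at tame points: family -/
theorem obj_fam3 {C : (G : Type) → [Group G] → Prop} {Rb : G → Set X} {F : G → X → (Set (Vtx H) × Set H) × Vtx H}
    (hF : Sys Rb F) {Q b r k N ρ : ℕ}
    (hc : ∀ (P : Set (Vtx H) × Set H), Rgn P → ∀ y ∈ P.1, (∃ γ ∈ Tb G b r P y, Lx H γ) → Tame G k N ρ P y →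
      C (St (Subgroup.closure {u : G | ∃ γ ∈ Tb G b r P y, u = γ ^ Q}))) (R1 : ℕ) :
    @IsFam C G X _ _ _ 1 (Set G) (Pool.Agent.H54.AX.cact (MonoidHom.id G)) (fun o g => {x | x ∈ Rb g ∧
      (∃ y ∈ (F g x).1.1, ds (F g x).2 y ≤ R1) ∧ ∀ y ∈ (F g x).1.1, ds (F g x).2 y ≤ R1 →
        ((∃ γ ∈ Tb G b r (F g x).1 y, Lx H γ) ∧ Tame G k N ρ (F g x).1 y) ∧ Ob Q b r (F g x).1 y = o}) := by
  let iact : MulAction G (Set G) := Pool.Agent.H54.AX.cact (MonoidHom.id G)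
  have hob : ∀ (g : G) (P : Set (Vtx H) × Set H) (y : Vtx H), (Ob Q b r (g • P) (g • y) : Set G) = iact.smul g (Ob Q b r P y) :=
    fun g P y => ob_smul g Q b r P y
  refine @IsFam.mk C G X _ _ _ 1 (Set G) iact _ ?_ ?_ ?_ ?_ ?_
  · intro o g
    exact hF.opn g (fun q => (∃ y ∈ q.1.1, ds q.2 y ≤ R1) ∧ ∀ y ∈ q.1.1, ds q.2 y ≤ R1 →
      ((∃ γ ∈ Tb G b r q.1 y, Lx H γ) ∧ Tame G k N ρ q.1 y) ∧ Ob Q b r q.1 y = o)
  · rintro o g h x ⟨h1, ⟨y, hy, hyd⟩, h2⟩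
    have e := hF.eqv g h x
    refine ⟨hF.rb g h x h1, ?_, ?_⟩
    · rw [e]
      refine ⟨g • y, Set.smul_mem_smul_set hy, ?_⟩
      show ds (g • (F h x).2) (g • y) ≤ R1
      rw [Pool.Agent.H25.CN.ds_smul]
      exact hyd
    · rw [e]
      intro z hz hzd
      obtain ⟨z', hz', rfl⟩ := Set.mem_smul_set.1 hz
      have hzd' : ds (g • (F h x).2) (g • z') ≤ R1 := hzd
      rw [Pool.Agent.H25.CN.ds_smul] at hzd'
      obtain ⟨⟨⟨γ, hγ, hγ'⟩, htm⟩, h3⟩ := h2 z' hz' hzd'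
      refine ⟨⟨⟨g * γ * g⁻¹, (Tb_smul g _ _ _ _ _).2 hγ, (lx_conj γ g).2 hγ'⟩, htm.smul g⟩, ?_⟩
      show Ob Q b r (g • (F h x).1) (g • z') = _
      rw [hob, h3]
      rfl
  · rintro o g h x ⟨-, ⟨y, hy, hyd⟩, h2⟩ ⟨-, -, h3⟩
    have h4 := (h2 y hy hyd).2
    have h5 := (h3 y hy hyd).2
    exact h5.symm.trans h4
  · rintro o h x ⟨-, ⟨y, hy, hyd⟩, h2⟩
    obtain ⟨⟨hlx, htm⟩, rfl⟩ := h2 y hy hyd
    have hst' := hc _ (hF.rgn h x) y hy hlx htm
    obtain ⟨A, hA⟩ : ∃ A : Subgroup G, A = Subgroup.closure {u : G | ∃ γ ∈ Tb G b r (F h x).1 y, u = γ ^ Q} := ⟨_, rfl⟩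
    rw [← hA] at hst'
    have e : MulAction.stabilizer G (Ob Q b r (F h x).1 y : Set G) = St A := by
      ext t
      constructor
      · intro ht u
        have h6 : iact.smul t (Ob Q b r (F h x).1 y) = Ob Q b r (F h x).1 y := ht
        have h7 : u ∈ iact.smul t (Ob Q b r (F h x).1 y) ↔ u ∈ (Ob Q b r (F h x).1 y : Set G) := by rw [h6]
        rw [hA]
        exact h7
      · intro ht
        show iact.smul t (Ob Q b r (F h x).1 y) = Ob Q b r (F h x).1 y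
        ext u
        have h6 := ht u
        rw [hA] at h6
        exact h6
    show C (MulAction.stabilizer G (Ob Q b r (F h x).1 y : Set G))
    rw [e]
    exact hst'
  · intro h x
    rw [Nat.cast_one, Set.encard_le_one_iff]
    rintro o o' ⟨-, ⟨y, hy, hyd⟩, h2⟩ ⟨-, -, h3⟩
    rw [← (h2 y hy hyd).2, ← (h3 y hy hyd).2]

/-- the families of the objects at tame points -/
theorem ob_famW3 {C : (G : Type) → [Group G] → Prop} {Rb : G → Set X} {F : G → X → (Set (Vtx H) × Set H) × Vtx H}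
    (hF : Sys Rb F) {Q b r k N ρ : ℕ}
    (hc : ∀ (P : Set (Vtx H) × Set H), Rgn P → ∀ y ∈ P.1, (∃ γ ∈ Tb G b r P y, Lx H γ) → Tame G k N ρ P y →
      C (St (Subgroup.closure {u : G | ∃ γ ∈ Tb G b r P y, u = γ ^ Q}))) (S : Set G) {e1 e rad : ℕ} (hb : b ≤ r)
    (hr : r + b + 2 * (e1 + e) + e ≤ rad) (hr' : ρ + 2 * (e1 + e) + e ≤ rad) :
    ∃ Φ : Fam G X, FamW C 1 S (fun g x => (∀ s ∈ S, x ∈ Rb (g * s)) ∧ ∃ y, Same F S e1 e rad g x y ∧
      ∀ z ∈ (F g x).1.1, ds y z ≤ 2 * (e1 + e) → ((∃ γ ∈ Tb G b r (F g x).1 z, Lx H γ) ∧ Tame G k N ρ (F g x).1 z) ∧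
        (Ob Q b r (F g x).1 z : Set G) = Ob Q b r (F g x).1 y) Φ := by
  refine ⟨⟨Set G, Pool.Agent.H54.AX.cact (MonoidHom.id G), _, 1⟩, rfl, obj_fam3 hF hc (e1 + e), ?_⟩
  rintro g x ⟨hx, y, h, hy⟩
  refine ⟨Ob Q b r (F g x).1 y, fun s hs => ?_⟩
  have h1 := h.cen s hs
  have h2 := h.near
  refine ⟨hx s hs, ⟨y, (h.reg s hs y (by omega)).1 h.mem, h.near' hs⟩, fun y' hy' hd' => ?_⟩
  have h3 := ds_triangle (F g x).2 (F (g * s) x).2 y'
  have h4 : y' ∈ (F g x).1.1 := (h.reg s hs y' (by omega)).2 hy'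
  have h5 := ds_triangle y (F g x).2 y'
  rw [Pool.Agent.H37.CC.ds_comm y (F g x).2] at h5
  have h6 : Tb G b r (F g x).1 y' = Tb G b r (F (g * s) x).1 y' :=
    Tb_congr h4 hb (h.cf s hs y' h4 (r + b) (by omega)).symm
  have h9 : Ker G ρ (F (g * s) x).1 y' = Ker G ρ (F g x).1 y' := Ker_cf (h.cf s hs y' h4 ρ (by omega))
  obtain ⟨⟨h7, h10⟩, h8⟩ := hy y' h4 (by omega)
  refine ⟨⟨by rw [← h6]; exact h7, h10.anti h9.le⟩, ?_⟩
  rw [← h8]
  unfold Ob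
  rw [h6]

end

end Pool.Agent.H37.CE
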