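import Pool.Agent.H37.CE.Defs
import Pool.Agent.H37.CD.GloI
import Pool.Agent.H1.CI.GloI

/-!
# THEOREM CCB: some object is constant near a tame point
-/

set_option autoImplicit false

namespace Pool.Agent.H37.CE

open scoped Pointwise
open Pool.Agent.H98.FJ Pool.Agent.H37.PT Pool.Agent.H37.CC Pool.Agent.H37.CD

variable {G H : Type} [Group G] [PartialOrder H] [Bas H] [MulAction G H] [BAct G H]

private theorem rt_mono {A B : Subgroup G} (h : A ≤ B) : Rt A ⊆ Rt B := by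
  rintro x ⟨m, hm, hx⟩
  exact ⟨m, hm, h hx⟩

/-- the group generated by the `Q`-th powers of the near symmetries -/
def Aq (G : Type) {H : Type} [Group G] [PartialOrder H] [Bas H] [MulAction G H] [BAct G H] (Q b r : ℕ)
    (P : Set (Vtx H) × Set H) (y : Vtx H) : Subgroup G := Subgroup.closure {x : G | ∃ γ ∈ Tb G b r P y, x = γ ^ Q}

theorem Aq_mono {Q b b' r r' : ℕ} {P : Set (Vtx H) × Set H} {y y' : Vtx H} (h : Tb G b r P y ⊆ Tb G b' r' P y') :
    Aq G Q b r P y ≤ Aq G Q b' r' P y' := by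
  refine Subgroup.closure_mono ?_
  rintro x ⟨γ, hγ, rfl⟩
  exact ⟨γ, h hγ, rfl⟩

theorem Aq_comm {Q b r : ℕ} {P : Set (Vtx H) × Set H} {y : Vtx H}
    (h : ∀ x ∈ Tb G b r P y, ∀ z ∈ Tb G b r P y, x ^ Q * z ^ Q = z ^ Q * x ^ Q) :
    ∀ x ∈ Aq G Q b r P y, ∀ z ∈ Aq G Q b r P y, x * z = z * x := by
  have h1 : ∀ x ∈ {x : G | ∃ γ ∈ Tb G b r P y, x = γ ^ Q}, ∀ z ∈ {x : G | ∃ γ ∈ Tb G b r P y, x = γ ^ Q},
      x * z = z * x := by
    rintro _ ⟨a, ha, rfl⟩ _ ⟨b, hb, rfl⟩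
    exact h a ha b hb
  intro x hx z hz
  unfold Aq at hx hz
  induction hx using Subgroup.closure_induction with
  | mem x hx =>
    induction hz using Subgroup.closure_induction with
    | mem z hz => exact h1 x hx z hz
    | one => rw [mul_one, one_mul]
    | mul a b _ _ ha hb => rw [← mul_assoc, ha, mul_assoc, hb, mul_assoc]
    | inv a _ ha =>
      have hc : Commute x a := ha
      exact hc.inv_right
  | one => rw [mul_one, one_mul]
  | mul a b _ _ ha hb => rw [mul_assoc, hb, ← mul_assoc, ha, mul_assoc]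
  | inv a _ ha =>
    have hc : Commute a z := ha
    exact hc.inv_left

/-- (5): some object is constant near `y` -/
theorem ob_const3 {n : ℕ} (hd : Dim H n) {Q : ℕ} (hQ : 0 < Q) {P : Set (Vtx H) × Set H} {y : Vtx H} (hy : y ∈ P.1) {b r t : ℕ}
    (hr : b + 14 * n * t + 5 * t ≤ r)
    (hab : ∀ x ∈ Tb G (b + 8 * n * t) (r - 4 * n * t) P y, ∀ z ∈ Tb G (b + 8 * n * t) (r - 4 * n * t) P y,
      x ^ Q * z ^ Q = z ^ Q * x ^ Q)
    (htor : ∀ a ∈ Aq G Q (b + 8 * n * t) (r - 4 * n * t) P y, ¬ Lx H a → IsOfFinOrder a)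
    (hinf : ∃ γ ∈ Tb G b r P y, Lx H γ) :
    ∃ j < 2 * n, ∀ z ∈ P.1, ds y z ≤ t →
      (∃ γ ∈ Tb G (b + 4 * j * t + 2 * t) (r - 2 * j * t - t) P z, Lx H γ) ∧
      (Ob (b := b + 4 * j * t + 2 * t) (r := r - 2 * j * t - t) Q P z : Set G) =
        Ob (b := b + 4 * j * t + 2 * t) (r := r - 2 * j * t - t) Q P y := by
  have e8 : 8 * n * t = 8 * (n * t) := by ring
  have e4n : 4 * n * t = 4 * (n * t) := by ring
  have e14 : 14 * n * t = 14 * (n * t) := by ring
  rw [e14] at hr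
  let T : ℕ → Set G := fun j => Tb G (b + 4 * j * t) (r - 2 * j * t) P y
  let A : ℕ → Subgroup G := fun j => Aq G Q (b + 4 * j * t) (r - 2 * j * t) P y
  have hTm : ∀ j, T j ⊆ T (j + 1) := by
    intro j
    refine Tb_mono ?_ ?_
    · have : 4 * j * t ≤ 4 * (j + 1) * t := Nat.mul_le_mul_right _ (by omega)
      omega
    · have : 2 * j * t ≤ 2 * (j + 1) * t := Nat.mul_le_mul_right _ (by omega)
      omega
  obtain ⟨γ0, hγ0, hinf0⟩ := hinf
  have h00 : γ0 ∈ T 0 := by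
    show γ0 ∈ Tb G (b + 4 * 0 * t) (r - 2 * 0 * t) P y
    simpa using hγ0
  have hT0 : ∀ j, γ0 ∈ T j := by
    intro j
    induction j with
    | zero => exact h00
    | succ j ih => exact hTm j ih
  have e1 : b + 4 * (2 * n) * t = b + 8 * n * t := by ring
  have e2 : r - 2 * (2 * n) * t = r - 4 * n * t := by
    have : 2 * (2 * n) * t = 4 * n * t := by ring
    rw [this]
  have eA : A (2 * n) = Aq G Q (b + 8 * n * t) (r - 4 * n * t) P y := by
    show Aq G Q (b + 4 * (2 * n) * t) (r - 2 * (2 * n) * t) P y = _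
    rw [e1, e2]
  obtain ⟨j, hj, hrt⟩ := Pool.Agent.H1.CI.exists_rt3 hd A (fun j _ => Aq_mono (hTm j)) (by
    rw [eA]
    exact Aq_comm hab) (by
    rw [eA]
    exact htor) ⟨γ0 ^ Q, Subgroup.subset_closure ⟨γ0, h00, rfl⟩, (lx_pow hQ).2 hinf0⟩
  have hjt : j * t + t ≤ 2 * (n * t) := by
    have h1 : (j + 1) * t ≤ 2 * n * t := Nat.mul_le_mul_right _ (by omega)
    have h2 : (j + 1) * t = j * t + t := by ring
    have h3 : 2 * n * t = 2 * (n * t) := by ring
    omega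
  have e4 : 4 * j * t = 4 * (j * t) := by ring
  have e2 : 2 * j * t = 2 * (j * t) := by ring
  have e4' : 4 * (j + 1) * t = 4 * (j * t) + 4 * t := by ring
  have e2' : 2 * (j + 1) * t = 2 * (j * t) + 2 * t := by ring
  have key : ∀ z ∈ P.1, ds y z ≤ t → T j ⊆ Tb G (b + 4 * j * t + 2 * t) (r - 2 * j * t - t) P z ∧
      Tb G (b + 4 * j * t + 2 * t) (r - 2 * j * t - t) P z ⊆ T (j + 1) := by
    intro z hz hyz
    constructor
    · exact Tb_move hy hz hyz (by omega)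
    · have h1 := Tb_move (G := G) (b := b + 4 * j * t + 2 * t) (r := r - 2 * j * t - t) (t := t) hz hy
        (by rwa [Pool.Agent.H37.CC.ds_comm]) (by omega)
      have h2 : b + 4 * j * t + 2 * t + 2 * t = b + 4 * (j + 1) * t := by omega
      have h3 : r - 2 * j * t - t - t = r - 2 * (j + 1) * t := by omega
      rw [h2, h3] at h1
      exact h1
  have key2 : ∀ z ∈ P.1, ds y z ≤ t →
      (Ob (b := b + 4 * j * t + 2 * t) (r := r - 2 * j * t - t) Q P z : Set G) = Rt (A j) := by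
    intro z hz hyz
    obtain ⟨h1, h2⟩ := key z hz hyz
    refine Set.Subset.antisymm ?_ (rt_mono (Aq_mono h1))
    rw [hrt]
    exact rt_mono (Aq_mono h2)
  have hyy : ds y y ≤ t := by
    unfold ds
    simp
  refine ⟨j, hj, fun z hz hyz => ⟨⟨γ0, (key z hz hyz).1 (hT0 j), hinf0⟩, ?_⟩⟩
  rw [key2 z hz hyz, key2 y hy hyy]

end Pool.Agent.H37.CE
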