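import Pool.Agent.H92.CZ.Core
import Pool.Agent.H54.CB.Tors
import Pool.Agent.H37.CE.Cst
import Pool.Agent.H37.MG.Fin3

/-!
# THEOREM CCB: the core, the theorem for pocsets and for median graphs
-/

set_option autoImplicit false

namespace Pool.Agent.H37.CE

open scoped Pointwise
open Pool.Agent.H98.FJ Pool.Agent.H37.PT Pool.Agent.H76.GT Pool.Agent.H37.CC Pool.Agent.H37.CD Pool.Agent.H37.MG

theorem tor3 (n Q : ℕ) : Tor3 n (2 * Pool.Agent.H54.CB.Kt n Q) Q (2 ^ (2 * n) + 1) := by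
  intro G H _ _ _ _ _ hd P hP y hy b r ρ hr hf hab
  obtain ⟨h1, h2⟩ := Pool.Agent.H54.CB.Kt_le n Q b
  have h3 : (b + 1) ^ (2 ^ (2 * n)) ≤ (b + 1) ^ (2 ^ (2 * n) + 1) := Nat.pow_le_pow_right (Nat.succ_pos b) (Nat.le_succ _)
  have h4 : 2 * Pool.Agent.H54.CB.Kt n Q * (b + 1) ^ (2 ^ (2 * n)) ≤ 2 * Pool.Agent.H54.CB.Kt n Q * (b + 1) ^ (2 ^ (2 * n) + 1) :=
    Nat.mul_le_mul_left _ h3
  have h5 : 2 * Pool.Agent.H54.CB.Kt n Q * (b + 1) ^ (2 ^ (2 * n)) = 2 * (Pool.Agent.H54.CB.Kt n Q * (b + 1) ^ (2 ^ (2 * n))) := by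
    ring
  refine Pool.Agent.H54.CB.tors3 hd hP hy
    (ρ := ρ + n.factorial * (Pool.Agent.H54.CB.Lf (2 * n) (Q * b) * Q * b)) hab ?_ (Nat.le_add_left _ _) (by omega)
  exact hf.subset (Ker_anti (Nat.le_add_right _ _))

theorem con3 (n R κ m e s : ℕ) : ∃ ρ r K w : ℕ → ℕ, Con3 n R κ m e s ρ r K w := by
  obtain ⟨ρ, r, K, h1, h2, h3, -, h5⟩ := exists_con3 n R κ m e s
  exact ⟨ρ, r, K, rr3 n R κ m e ρ,
    { mρ := h1
      mr := h2
      lt := h3
      w_ge := fun ι _ => le_rfl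
      r_ge := fun ι hι => (h5 ι hι).1
      K_ge := fun ι hι => (h5 ι hι).2 }⟩

/-- THEOREM CCB, core -/
theorem core3 {C : (G : Type) → [Group G] → Prop} (hC : Inherits C) (hT : Transfer C) : Pool.Agent.H92.CZ.CoreV C :=
  core_of_tor hC hT (fun n _ _ => ⟨_, _, by
    have : 1 ≤ 2 ^ (2 * n) := Nat.one_le_two_pow
    omega, tor3 n _⟩) con3

/-- THEOREM CCB, final form: median graphs -/
theorem median_main3 {C : (G : Type) → [Group G] → Prop} (hC : Inherits C) (hT : Transfer C) (G : Type) [Group G]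
    (h : ∀ K : Subgroup G, K.FG → ∃ (V : Type) (_ : MulAction K V) (X : SimpleGraph V) (n : ℕ) (I : Type) (_ : PartialOrder I)
      (_ : MulAction K I) (k N m : ℕ) (o : I) (pc : Subgroup K → I),
      Median X ∧ (∀ (g : K) (a b : V), X.Adj a b → X.Adj (g • a) (g • b)) ∧
      (∀ f : (Fin (n + 1) → Bool) → V, ¬ IsCube X (n + 1) f) ∧ (∀ v : V, C (MulAction.stabilizer K v)) ∧
      Clo X k N m o pc ∧ ∀ B : Subgroup K, FM X k B → pc B ≠ o → C (MulAction.stabilizer K (pc B))) : C G :=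
  median3 hC (fun n => Pool.Agent.H92.CZ.pocset3 hC (core3 hC hT) n) G h

end Pool.Agent.H37.CE
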