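import Pool.Agent.H94.CL.Loc2

/-!
# THEOREM CCB: the local kernel

`Ker G ρ P y`: the subgroup of all `g` which fix `y` and every half-space of the configuration of radius `ρ` at `y`. `Fxd H k B`: the
subgroup `B` fixes two vertices at distance at least `k`.

`Ker_le` (K1): base points. `Ker_fix` (K2): the kernel fixes the points of the region at distance at most `ρ`. `ker_fin` (K3): if the elements
of `T ^ (2 n)` fix or cross the half-spaces of the configuration then the group generated by `T` has a subgroup of finite index which is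
contained in the kernel.
-/

set_option autoImplicit false

namespace Pool.Agent.H37.CE

open Pool.Agent.H37.CC Pool.Agent.H37.CD Pool.Agent.H25.CN
open scoped Pointwise

/-- the local kernel -/
def Ker (G : Type) {H : Type} [Group G] [PartialOrder H] [Bas H] [MulAction G H] [BAct G H] (ρ : ℕ)
    (P : Set (Vtx H) × Set H) (y : Vtx H) : Subgroup G where
  carrier := {g | g • y = y ∧ ∀ w ∈ (Cf ρ P y).2.2, g • w = w}
  one_mem' := ⟨one_smul _ _, fun w _ => one_smul _ _⟩
  mul_mem' := by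
    rintro a b ⟨h1, h2⟩ ⟨h3, h4⟩
    refine ⟨?_, fun w hw => ?_⟩
    · rw [mul_smul, h3, h1]
    · rw [mul_smul, h4 w hw, h2 w hw]
  inv_mem' := by
    rintro a ⟨h1, h2⟩
    refine ⟨?_, fun w hw => ?_⟩
    · rw [inv_smul_eq_iff, h1]
    · rw [inv_smul_eq_iff, h2 w hw]

/-- the subgroup `B` fixes two vertices at distance at least `k` -/
def Fxd {G : Type} (H : Type) [Group G] [PartialOrder H] [Bas H] [MulAction G H] [BAct G H] (k : ℕ) (B : Subgroup G) : Prop :=
  ∃ x y : Vtx H, k ≤ ds x y ∧ ∀ b ∈ B, b • x = x ∧ b • y = y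

variable {G H : Type} [Group G] [PartialOrder H] [Bas H] [MulAction G H] [BAct G H]
variable {P : Set (Vtx H) × Set H} {y z : Vtx H} {n ρ t : ℕ}

theorem mem_Ker {g : G} : g ∈ Ker G ρ P y ↔ g • y = y ∧ ∀ w ∈ P.2, (∃ z ∈ P.1, ds y z ≤ ρ ∧ Spt w y z) → g • w = w :=
  ⟨fun h => ⟨h.1, fun w hw hs => h.2 w ⟨hw, hs⟩⟩, fun h => ⟨h.1, fun w hw => h.2 w hw.1 hw.2⟩⟩

theorem Ker_cf {P' : Set (Vtx H) × Set H} (h : Cf ρ P y = Cf ρ P' y) : Ker G ρ P y = Ker G ρ P' y := by
  ext g
  show (_ ∧ _) ↔ (_ ∧ _)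
  rw [h]

theorem Ker_anti {ρ' : ℕ} (h : ρ ≤ ρ') : Ker G ρ' P y ≤ Ker G ρ P y := by
  intro g hg
  rw [mem_Ker] at hg ⊢
  refine ⟨hg.1, fun w hw hs => hg.2 w hw ?_⟩
  obtain ⟨z, hz, hd, hs⟩ := hs
  exact ⟨z, hz, hd.trans h, hs⟩

theorem Ker_smul (g γ : G) : γ ∈ Ker G ρ (g • P) (g • y) ↔ g⁻¹ * γ * g ∈ Ker G ρ P y := by
  have e : Cf ρ (g • P) (g • y) = g • Cf ρ P y := Cf_smul g ρ P y
  constructor
  · rintro ⟨h1, h2⟩
    refine ⟨?_, fun w hw => ?_⟩
    · rw [mul_smul, mul_smul, h1, inv_smul_smul]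
    · have h3 := h2 (g • w) (by
        rw [e]
        exact Set.smul_mem_smul_set hw)
      rw [mul_smul, mul_smul, h3, inv_smul_smul]
  · rintro ⟨h1, h2⟩
    refine ⟨?_, fun w hw => ?_⟩
    · rw [mul_smul, mul_smul, inv_smul_eq_iff] at h1
      exact h1
    · rw [e] at hw
      obtain ⟨w', hw', rfl⟩ := Set.mem_smul_set.1 hw
      have h3 := h2 w' hw'
      rw [mul_smul, mul_smul, inv_smul_eq_iff] at h3
      exact h3

/-- an element which fixes all half-spaces of a set `W` and `y` fixes every `z` which is separated from `y` only by elements of `W`, up to complements -/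
theorem fix_of_spt {g : G} (hy : g • y = y) (h : ∀ w, Spt w y z → g • w = w) : g • z = z := by
  refine Vtx.ext' fun k => ?_
  rw [mem_smul]
  by_cases h1 : Spt k y z
  · have h2 : g⁻¹ • k = k := by rw [inv_smul_eq_iff, h k h1]
    rw [h2]
  · by_cases h3 : Spt (g⁻¹ • k) y z
    · have h4 := h _ h3
      rw [smul_inv_smul] at h4
      rw [← h4]
    · have h4 : k ∈ y.U ↔ k ∈ z.U := not_not.1 h1
      have h5 : g⁻¹ • k ∈ y.U ↔ g⁻¹ • k ∈ z.U := not_not.1 h3
      rw [← h5, ← h4, ← mem_smul, hy]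

theorem spt_loc (hP : Rgn P) (hy : y ∈ P.1) (hz : z ∈ P.1) {h : H} (hs : Spt h y z) : h ∈ P.2 ∨ st h ∈ P.2 := by
  by_cases h3 : h ∈ y.U
  · refine hP.sep y hy z hz h h3 fun h4 => hs ?_
    exact ⟨fun _ => h4, fun _ => h3⟩
  · refine hP.sep z hz y hy h ?_ h3
    by_contra h4
    exact hs ⟨fun h5 => absurd h5 h3, fun h5 => absurd h5 h4⟩

theorem spt_st {h : H} : Spt (st h) y z ↔ Spt h y z := by
  unfold Spt
  rw [y.st_mem, z.st_mem, not_iff_not, not_iff_not]

theorem fix_st {g : G} {h : H} (e : g • st h = st h) : g • h = h := by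
  rw [smul_st] at e
  exact st_inj e

/-- an element which fixes the half-spaces of the region between `y` and `z` fixes all half-spaces between them -/
theorem fix_spt (hP : Rgn P) (hy : y ∈ P.1) (hz : z ∈ P.1) {g : G} (h : ∀ w ∈ P.2, Spt w y z → g • w = w) (w : H)
    (hs : Spt w y z) : g • w = w := by
  rcases spt_loc hP hy hz hs with h1 | h1
  · exact h w h1 hs
  · exact fix_st (h _ h1 (spt_st.2 hs))

/-- (K1) -/
theorem Ker_le (hP : Rgn P) (hy : y ∈ P.1) (hz : z ∈ P.1) (hd : ds y z ≤ t) : Ker G (ρ + t) P y ≤ Ker G ρ P z := by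
  intro g hg
  rw [mem_Ker] at hg ⊢
  refine ⟨fix_of_spt hg.1 (fix_spt hP hy hz fun w hw hs => hg.2 w hw ⟨z, hz, by omega, hs⟩), fun w hw hs => ?_⟩
  obtain ⟨u, hu, hdu, hs⟩ := hs
  refine hg.2 w hw ?_
  rcases hs.or y with h1 | h1
  · exact ⟨z, hz, by omega, h1⟩
  · refine ⟨u, hu, ?_, h1⟩
    have := Pool.Agent.H54.CV.ds_tri y z u
    omega

/-- (K2) -/
theorem Ker_fix (hP : Rgn P) (hy : y ∈ P.1) (hz : z ∈ P.1) (hd : ds y z ≤ ρ) {g : G} (hg : g ∈ Ker G ρ P y) : g • z = z := by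
  have h1 := Ker_le (G := G) (ρ := 0) (t := ρ) hP hy hz hd
  rw [zero_add] at h1
  exact (h1 hg).1

theorem Fxd_Ker {k : ℕ} (hP : Rgn P) (hy : y ∈ P.1) (hz : z ∈ P.1) (hd : ds y z ≤ ρ) (hk : k ≤ ds y z) :
    Fxd H k (Ker G ρ P y) :=
  ⟨y, z, hk, fun _ hb => ⟨hb.1, Ker_fix hP hy hz hd hb⟩⟩

theorem Fxd.mono {k : ℕ} {B B' : Subgroup G} (h : B ≤ B') (hB : Fxd H k B') : Fxd H k B := by
  obtain ⟨x, y, h1, h2⟩ := hB
  exact ⟨x, y, h1, fun b hb => h2 b (h hb)⟩

/-- an element which fixes all local half-spaces and maps `y` to a near point of the region fixes `y` -/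
theorem fix_of_near (hP : Rgn P) (hy : y ∈ P.1) {g : G} (hg : g • y ∈ P.1) (hd : ds y (g • y) ≤ ρ)
    (h : ∀ w ∈ P.2, (∃ z ∈ P.1, ds y z ≤ ρ ∧ Spt w y z) → g • w = w) : g ∈ Ker G ρ P y := by
  rw [mem_Ker]
  refine ⟨?_, h⟩
  refine Vtx.ext' fun k => ?_
  by_contra hk
  have hs : Spt k y (g • y) := fun e => hk e.symm
  have h1 := fix_spt hP hy hg (fun w hw hs => h w hw ⟨_, hg, hd, hs⟩) k hs
  apply hk
  have h2 : k ∈ (g • y).U ↔ g • k ∈ (g • y).U := by rw [h1]
  rw [h2, smul_mem_smul]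

/-- (K3) -/
theorem ker_fin (hP : Rgn P) (hd : Dim H n) (hy : y ∈ P.1) {T : Set G} (h1 : (1 : G) ∈ T) (hi : ∀ t ∈ T, t⁻¹ ∈ T)
    (hT : ∀ t ∈ T, t • y ∈ P.1 ∧ ds y (t • y) ≤ ρ)
    (hc : ∀ w ∈ P.2, (∃ z ∈ P.1, ds y z ≤ ρ ∧ Spt w y z) → ∀ γ ∈ T ^ (2 * n), γ • w = w ∨ Crs w (γ • w)) :
    ∃ B ≤ Subgroup.closure T, B.relIndex (Subgroup.closure T) ≠ 0 ∧ B ≤ Ker G ρ P y := by
  classical
  set F : Subgroup G := Subgroup.closure T with hF
  set L : Set H := {w | w ∈ P.2 ∧ ∃ z ∈ P.1, ds y z ≤ ρ ∧ Spt w y z} with hL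
  have hLf : L.Finite := hP.fin2.subset fun w hw => hw.1
  have hOf : ∀ w ∈ L, {k : H | ∃ γ ∈ F, k = γ • w}.Finite := fun w hw =>
    Set.finite_of_encard_le_coe (orbit_card hd (orbit_crs hd h1 hi (hc w hw.1 hw.2)))
  -- the finite invariant set
  set O : Set H := ⋃ w ∈ L, {k : H | ∃ γ ∈ F, k = γ • w} with hO
  have hOfin : O.Finite := hLf.biUnion fun w hw => hOf w hw
  have hOi : ∀ γ : F, ∀ k : H, k ∈ O → (γ : G) • k ∈ O := by
    intro γ k hk
    rw [hO, Set.mem_iUnion₂] at hk ⊢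
    obtain ⟨w, hw, δ, hδ, rfl⟩ := hk
    exact ⟨w, hw, γ * δ, mul_mem γ.2 hδ, (mul_smul _ _ _).symm⟩
  have hOL : ∀ w ∈ L, w ∈ O := by
    intro w hw
    rw [hO, Set.mem_iUnion₂]
    exact ⟨w, hw, 1, one_mem _, (one_smul _ _).symm⟩
  have : Finite O := hOfin
  let φ : F →* Equiv.Perm O :=
    { toFun := fun γ =>
        { toFun := fun k => ⟨(γ : G) • (k : H), hOi γ k k.2⟩
          invFun := fun k => ⟨((γ⁻¹ : F) : G) • (k : H), hOi γ⁻¹ k k.2⟩
          left_inv := fun k => Subtype.ext (inv_smul_smul (γ : G) (k : H))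
          right_inv := fun k => Subtype.ext (smul_inv_smul (γ : G) (k : H)) }
      map_one' := Equiv.ext fun k => Subtype.ext (one_smul G (k : H))
      map_mul' := fun a b => Equiv.ext fun k => Subtype.ext (mul_smul (a : G) (b : G) (k : H)) }
  have hφ : ∀ γ : F, γ ∈ φ.ker ↔ ∀ k ∈ O, (γ : G) • k = k := by
    intro γ
    rw [MonoidHom.mem_ker]
    constructor
    · intro h k hk
      have h2 := congrArg (fun f : Equiv.Perm O => ((f ⟨k, hk⟩ : O) : H)) h
      exact h2
    · intro h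
      exact Equiv.ext fun k => Subtype.ext (h k k.2)
  refine ⟨φ.ker.map F.subtype, ?_, ?_, ?_⟩
  · rintro _ ⟨b, _, rfl⟩
    exact b.2
  · have h2 : (φ.ker.map F.subtype).subgroupOf F = φ.ker := by
      ext x
      rw [Subgroup.mem_subgroupOf]
      constructor
      · rintro ⟨b, hb, hbx⟩
        have : b = x := Subtype.ext hbx
        rwa [← this]
      · intro hx
        exact ⟨x, hx, rfl⟩
    rw [Subgroup.relIndex, h2]
    have : Finite (Equiv.Perm O) := inferInstance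
    exact Subgroup.FiniteIndex.index_ne_zero
  · rintro _ ⟨b, hb, rfl⟩
    have hb' := (hφ b).1 hb
    -- the half-spaces between `y` and `γ • y`
    have key : ∀ γ ∈ F, ∀ h : H, Spt h y (γ • y) → h ∈ O ∨ st h ∈ O := by
      intro γ hγ
      rw [hF] at hγ
      induction hγ using Subgroup.closure_induction with
      | mem t ht =>
        intro h hh
        obtain ⟨a1, a2⟩ := hT t ht
        rcases spt_loc hP hy a1 hh with h2 | h2
        · exact Or.inl (hOL _ ⟨h2, _, a1, a2, hh⟩)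
        · exact Or.inr (hOL _ ⟨h2, _, a1, a2, spt_st.2 hh⟩)
      | one =>
        intro h hh
        rw [one_smul] at hh
        exact absurd Iff.rfl hh
      | mul γ γ' hγ hγ' ih ih' =>
        intro h hh
        by_cases h2 : Spt h y (γ • y)
        · exact ih h h2
        · have h3 : Spt h (γ • y) ((γ * γ') • y) := by
            unfold Spt at hh h2 ⊢
            rw [not_not] at h2
            rwa [← h2]
          have h4 : Spt (γ⁻¹ • h) y (γ' • y) := by
            rw [← spt_smul (g := γ), smul_inv_smul, smul_smul]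
            exact h3
          rcases ih' _ h4 with h5 | h5
          · have h6 := hOi ⟨γ, hγ⟩ _ h5
            left
            rwa [smul_inv_smul] at h6
          · have h6 := hOi ⟨γ, hγ⟩ _ h5
            right
            rw [← smul_st] at h6
            rwa [smul_inv_smul] at h6
      | inv γ hγ ih =>
        intro h hh
        have h3 : Spt (γ • h) y (γ • y) := by
          rw [← spt_smul (g := γ), smul_inv_smul] at hh
          exact fun e => hh e.symm
        rcases ih _ h3 with h5 | h5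
        · have h6 := hOi (⟨γ, hγ⟩⁻¹) _ h5
          left
          have h7 : γ⁻¹ • γ • h ∈ O := h6
          rwa [inv_smul_smul] at h7
        · have h6 := hOi (⟨γ, hγ⟩⁻¹) _ h5
          right
          have h7 : γ⁻¹ • st (γ • h) ∈ O := h6
          rw [← smul_st] at h7
          rwa [inv_smul_smul] at h7
    show (b : G) ∈ Ker G ρ P y
    rw [mem_Ker]
    refine ⟨?_, fun w hw hs => hb' w (hOL w ⟨hw, hs⟩)⟩
    refine Vtx.ext' fun k => ?_
    by_contra hk
    have hs : Spt k y ((b : G) • y) := fun e => hk e.symm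
    have h2 : (b : G) • k = k := by
      rcases key b b.2 k hs with h3 | h3
      · exact hb' _ h3
      · exact fix_st (hb' _ h3)
    apply hk
    have h3 : k ∈ ((b : G) • y).U ↔ (b : G) • k ∈ ((b : G) • y).U := by rw [h2]
    rw [h3, smul_mem_smul]

end Pool.Agent.H37.CE
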